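import Pool.Agent.H484Z.Box.Affine

set_option autoImplicit false

namespace Pool.Agent.Results.MP_9d74f4_an.ANoBoxDim

open Pool.Agent.H484Z.Box

/-- There is a self-affine set in four-space (even with pairwise disjoint pieces) whose lower box
dimension is strictly smaller than its upper box dimension. -/
theorem result : ∃ (m : ℕ)
    (A : Fin m → (EuclideanSpace ℝ (Fin 4) →L[ℝ] EuclideanSpace ℝ (Fin 4)))
    (t : Fin m → EuclideanSpace ℝ (Fin 4)) (K : Set (EuclideanSpace ℝ (Fin 4))),
    2 ≤ m ∧ (∀ i, Function.Bijective (A i)) ∧ (∀ i, ‖A i‖ < 1) ∧ K.Nonempty ∧ IsCompact K ∧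
    K = ⋃ i, (fun x => A i x + t i) '' K ∧
    (Pairwise fun i j => Disjoint ((fun x => A i x + t i) '' K) ((fun x => A j x + t j) '' K)) ∧
    lowerBox K < upperBox K :=
  affine_main

end Pool.Agent.Results.MP_9d74f4_an.ANoBoxDim
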